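import Mathlib
import Pool.Agent.TH480.SC.Main

set_option autoImplicit false

/-!
# MP_c6d336_gt: at least three conjugates are needed

If every non-trivial orientation-preserving homeomorphism `B` of the 2-sphere is a product of exactly
`n` conjugates of each non-trivial one `A`, then `n ≥ 3`. For `A` one takes the rotation by a
half-turn: a product of at most two of its conjugates is conjugate to its own inverse. For `B` one
takes the map `v ↦ D v / |D v|` with `D = diag (e, 1, 1)`: its non-constant forward orbits accumulate
at two points only, its non-constant backward orbits at all points of a circle, and so it is not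
conjugate to its inverse, not even by an orientation-reversing homeomorphism.
-/

namespace Pool.Agent.Results.MP_c6d336_gt.AtLeastThree

/-- The 2-sphere: the unit sphere of Euclidean three-space. -/
def S : Type := Metric.sphere (0 : EuclideanSpace ℝ (Fin 3)) 1

/-- The usual topology of the sphere, as a subspace of Euclidean three-space. -/
instance : TopologicalSpace S :=
  inferInstanceAs (TopologicalSpace (Metric.sphere (0 : EuclideanSpace ℝ (Fin 3)) 1))

/-- `f` is in the path component of the identity of the group of homeomorphisms of the sphere: there
is an isotopy `F` from the identity to `f`. -/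
def InG (f : S ≃ₜ S) : Prop :=
  ∃ F : unitInterval → (S ≃ₜ S), Continuous (fun p : unitInterval × S => F p.1 p.2) ∧
    F 0 = Homeomorph.refl S ∧ F 1 = f

/-- The property `P(n)`: any `B` in `G` is the product of exactly `n` conjugates of any `A` in `G`,
`A` and `B` different from the identity; the conjugating maps are arbitrary homeomorphisms. -/
def P (n : ℕ) : Prop :=
  ∀ A B : S ≃ₜ S, InG A → InG B → A ≠ Homeomorph.refl S → B ≠ Homeomorph.refl S →
    ∃ H : Fin n → (S ≃ₜ S), B = (List.ofFn fun i => H i * A * (H i)⁻¹).prod

/-- **The least number of conjugates is at least three.** -/
theorem result (n : ℕ) (hn : P n) : 3 ≤ n :=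
  Pool.Agent.TH480.SC.main n hn

end Pool.Agent.Results.MP_c6d336_gt.AtLeastThree
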